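import Mathlib
import Pool.Agent.V11157.Polyline
import Pool.Agent.V11157.HexSpiral

/-!
# The regular hexagon is the prototile of an `n`-armed spiral for every positive `n`

The marking of the hexagon consists of `n` parallel segments around each of three alternate vertices,
meeting the sides at the points `k / (n + 1)`.  In the regular tiling by hexagons the vertices fall
into two classes, and each hexagon surrounds either its three vertices of the first class or those of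
the second class.  The choice is made along a hexagonal spiral; then the segments of a fixed level form
one curve, as the permutation of the sides in `HexSpiral` has one orbit.
-/

set_option autoImplicit false

namespace Pool.Agent.Results.MP_f80956_co.AllArms

open Pool.Agent.V11157

/-- The Euclidean plane. -/
abbrev Plane : Type := EuclideanSpace ℝ (Fin 2)

/-- An arc: a homeomorphic image of the unit interval. -/
def IsArc (a : Set Plane) : Prop := Nonempty (Set.Icc (0 : ℝ) 1 ≃ₜ a)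

/-- An unbounded simple curve: the image of a closed embedding (a proper continuous injective map)
of the line or of a half-line. -/
def IsCurve (Γ : Set Plane) : Prop :=
  (∃ f : ℝ → Plane, Topology.IsClosedEmbedding f ∧ Set.range f = Γ) ∨
  (∃ f : Set.Ici (0 : ℝ) → Plane, Topology.IsClosedEmbedding f ∧ Set.range f = Γ)

/-- The regular hexagon of inradius one centred at the origin: the intersection of three strips of
width two whose normals make angles of 60 degrees. -/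
def H : Set Plane := {z | |z 0| ≤ 1 ∧ |z 0 + √3 * z 1| ≤ 2 ∧ |z 0 - √3 * z 1| ≤ 2}

/-- `M` is a marking of `H`: one or several arcs contained in `H`. -/
def IsMarking (M : Set (Set Plane)) : Prop :=
  M.Finite ∧ M.Nonempty ∧ ∀ a ∈ M, IsArc a ∧ a ⊆ H

/-- The sets `σ i '' H` form a tiling: countably many sets covering the plane, with pairwise disjoint
interiors. -/
def IsTilingBy {ι : Type} (σ : ι → (Plane ≃ᵢ Plane)) : Prop :=
  Countable ι ∧ (⋃ i, σ i '' H) = Set.univ ∧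
    ∀ i j, i ≠ j → Disjoint (interior (σ i '' H)) (interior (σ j '' H))

/-- The union of the marked arcs over all tiles is the union of exactly `n` pairwise disjoint
unbounded simple curves. -/
def IsArmedSpiral {ι : Type} (n : ℕ) (M : Set (Set Plane)) (σ : ι → (Plane ≃ᵢ Plane)) : Prop :=
  ∃ Γ : Fin n → Set Plane, (∀ k, IsCurve (Γ k)) ∧ (∀ k l, k ≠ l → Disjoint (Γ k) (Γ l)) ∧
    (⋃ k, Γ k) = ⋃ i, ⋃ a ∈ M, σ i '' a

/-! ### Coordinates -/

/-- The point with coordinates `(u, v)`. -/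
noncomputable def pt (u v : ℝ) : Plane := !₂[u, v]

@[simp] theorem pt_zero (u v : ℝ) : pt u v 0 = u := by simp [pt]
@[simp] theorem pt_one (u v : ℝ) : pt u v 1 = v := by simp [pt]

theorem ext2 {z w : Plane} (h0 : z 0 = w 0) (h1 : z 1 = w 1) : z = w := by
  ext i
  fin_cases i
  · exact h0
  · exact h1

theorem dist_sq (z w : Plane) : dist z w ^ 2 = (z 0 - w 0) ^ 2 + (z 1 - w 1) ^ 2 := by
  rw [EuclideanSpace.dist_eq, Real.sq_sqrt (by positivity)]
  simp [Real.dist_eq]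

/-- coefficients of the first coordinate -/
noncomputable def al : Fin 3 → ℝ := ![-1 / 2, 0, 1 / 2]

/-- coefficients of the second coordinate -/
noncomputable def be : Fin 3 → ℝ := ![1 / (2 * √3), -1 / √3, 1 / (2 * √3)]

/-- The three coordinates with sum zero. -/
noncomputable def X (z : Plane) : Fin 3 → ℝ := fun i => al i * z 0 + be i * z 1

/-- The point with three given coordinates. -/
noncomputable def Y (x : Fin 3 → ℝ) : Plane := pt (x 2 - x 0) (-(√3 * x 1))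

theorem X0 (z : Plane) : X z 0 = -1 / 2 * z 0 + 1 / (2 * √3) * z 1 := rfl
theorem X1 (z : Plane) : X z 1 = 0 * z 0 + -1 / √3 * z 1 := rfl
theorem X2 (z : Plane) : X z 2 = 1 / 2 * z 0 + 1 / (2 * √3) * z 1 := rfl

theorem s3 : √3 ≠ (0 : ℝ) := by positivity

theorem s3sq : √3 ^ 2 = (3 : ℝ) := Real.sq_sqrt (by norm_num)

theorem X_sum (z : Plane) : X z 0 + X z 1 + X z 2 = 0 := by
  rw [X0, X1, X2]
  have := s3
  field_simp
  ring

theorem Y_X (z : Plane) : Y (X z) = z := by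
  have h := s3
  apply ext2
  · rw [Y, pt_zero, X0, X2]; ring
  · rw [Y, pt_one, X1]
    field_simp
    ring

theorem X_Y (x : Fin 3 → ℝ) (h : x 0 + x 1 + x 2 = 0) : X (Y x) = x := by
  have hs := s3
  have h2 : x 1 = - x 0 - x 2 := by linarith
  funext i
  fin_cases i
  · change X (Y x) 0 = x 0
    rw [X0, Y, pt_zero, pt_one]
    field_simp
    rw [h2]; ring
  · change X (Y x) 1 = x 1
    rw [X1, Y, pt_zero, pt_one]
    field_simp
    ring
  · change X (Y x) 2 = x 2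
    rw [X2, Y, pt_zero, pt_one]
    field_simp
    rw [h2]; ring

theorem X_inj {z w : Plane} (h : X z = X w) : z = w := by
  rw [← Y_X z, h, Y_X]

theorem dist_X (z w : Plane) : dist z w ^ 2 = 2 * ∑ i, (X z i - X w i) ^ 2 := by
  have hs := s3
  rw [dist_sq, Fin.sum_univ_three, X0, X1, X2, X0, X1, X2]
  field_simp
  ring_nf
  rw [s3sq]
  ring

theorem continuous_X (i : Fin 3) : Continuous fun z : Plane => X z i := by
  unfold X
  fun_prop


theorem X_add (z w : Plane) (i : Fin 3) : X (z + w) i = X z i + X w i := by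
  simp [X]; ring

theorem X_sub (z w : Plane) (i : Fin 3) : X (z - w) i = X z i - X w i := by
  simp [X]; ring

theorem X_smul (t : ℝ) (z : Plane) (i : Fin 3) : X (t • z) i = t * X z i := by
  simp [X]; ring

/-- The point with given coordinates. -/
noncomputable def Q (a b c : ℝ) : Plane := Y ![a, b, c]

theorem X_Q {a b c : ℝ} (h : a + b + c = 0) : X (Q a b c) = ![a, b, c] :=
  X_Y _ (by simpa using h)

theorem X_Q0 {a b c : ℝ} (h : a + b + c = 0) : X (Q a b c) 0 = a := by rw [X_Q h]; rfl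
theorem X_Q1 {a b c : ℝ} (h : a + b + c = 0) : X (Q a b c) 1 = b := by rw [X_Q h]; rfl
theorem X_Q2 {a b c : ℝ} (h : a + b + c = 0) : X (Q a b c) 2 = c := by rw [X_Q h]; rfl

theorem eq_Q (z : Plane) : z = Q (X z 0) (X z 1) (X z 2) := by
  conv_lhs => rw [← Y_X z]
  rw [Q]
  congr 1
  funext i
  fin_cases i <;> rfl

theorem ext3 {z w : Plane} (h0 : X z 0 = X w 0) (h1 : X z 1 = X w 1) : z = w := by
  have s1 := X_sum z
  have s2 := X_sum w
  have h2 : X z 2 = X w 2 := by linarith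
  rw [eq_Q z, eq_Q w, h0, h1, h2]

/-- The inequalities of the hexagon. -/
def Hx (p q s : ℝ) : Prop := |s - p| ≤ 1 ∧ |s - q| ≤ 1 ∧ |q - p| ≤ 1

theorem mem_H (z : Plane) : z ∈ H ↔ Hx (X z 0) (X z 1) (X z 2) := by
  have h := s3
  have h3 := s3sq
  have e1 : X z 2 - X z 0 = z 0 := by rw [X0, X2]; ring
  have e2 : X z 2 - X z 1 = (z 0 + √3 * z 1) / 2 := by
    rw [X1, X2]
    field_simp
    linear_combination (-(z 1)) * h3
  have e3 : X z 1 - X z 0 = (z 0 - √3 * z 1) / 2 := by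
    rw [X1, X0]
    field_simp
    linear_combination (z 1) * h3
  unfold Hx
  rw [e1, e2, e3, abs_div, abs_div, abs_two, div_le_one two_pos, div_le_one two_pos]
  rfl

/-! ### The curves -/

/-- The crossing point of level `r` with the edge `x`. -/
noncomputable def P (r : ℝ) (x : HexSpiral.E) : Plane :=
  match x with
  | ((a, b), 0) => Q (a - 1 / 3 + 2 * r / 3) (b - 1 / 3 - r / 3) (1 - a - b - 1 / 3 - r / 3)
  | ((a, b), 1) => Q (a - 1 / 3 - r / 3) (b - 1 / 3 + 2 * r / 3) (1 - a - b - 1 / 3 - r / 3)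
  | ((a, b), 2) => Q (a - 1 / 3 - r / 3) (b - 1 / 3 - r / 3) (1 - a - b - 1 / 3 + 2 * r / 3)

theorem P0 (r : ℝ) (a b : ℤ) : X (P r ((a, b), 0)) 0 = a - 1 / 3 + 2 * r / 3 ∧
    X (P r ((a, b), 0)) 1 = b - 1 / 3 - r / 3 := by
  constructor
  · change X (Q _ _ _) 0 = _
    rw [X_Q0 (by ring)]
  · change X (Q _ _ _) 1 = _
    rw [X_Q1 (by ring)]

theorem P1 (r : ℝ) (a b : ℤ) : X (P r ((a, b), 1)) 0 = a - 1 / 3 - r / 3 ∧
    X (P r ((a, b), 1)) 1 = b - 1 / 3 + 2 * r / 3 := by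
  constructor
  · change X (Q _ _ _) 0 = _
    rw [X_Q0 (by ring)]
  · change X (Q _ _ _) 1 = _
    rw [X_Q1 (by ring)]

theorem P2 (r : ℝ) (a b : ℤ) : X (P r ((a, b), 2)) 0 = a - 1 / 3 - r / 3 ∧
    X (P r ((a, b), 2)) 1 = b - 1 / 3 - r / 3 := by
  constructor
  · change X (Q _ _ _) 0 = _
    rw [X_Q0 (by ring)]
  · change X (Q _ _ _) 1 = _
    rw [X_Q1 (by ring)]

/-- A point of the step starting at the edge `x`. -/
noncomputable def W (r : ℝ) (x : HexSpiral.E) (τ : ℝ) : Plane :=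
  P r x + τ • (P r (HexSpiral.S x) - P r x)

theorem W_coord (r : ℝ) (x : HexSpiral.E) (τ : ℝ) (i : Fin 3) : X (W r x τ) i =
    X (P r x) i + τ * (X (P r (HexSpiral.S x)) i - X (P r x) i) := by
  rw [W, X_add, X_smul, X_sub]

theorem S0c {a b : ℤ} (h : ¬ HexSpiral.O a b) : HexSpiral.S ((a, b), 0) = ((a, b), 1) := if_neg h
theorem S0o {a b : ℤ} (h : HexSpiral.O a b) : HexSpiral.S ((a, b), 0) = ((a + 1, b), 2) := if_pos h
theorem S1c {a b : ℤ} (h : ¬ HexSpiral.O a b) : HexSpiral.S ((a + 1, b), 1) = ((a + 1, b), 2) := by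
  have : ¬ HexSpiral.O (a + 1 - 1) b := by rwa [add_sub_cancel_right]
  exact if_neg this
theorem S1o {a b : ℤ} (h : HexSpiral.O a b) : HexSpiral.S ((a + 1, b), 1) = ((a, b + 1), 0) := by
  have : HexSpiral.O (a + 1 - 1) b := by rwa [add_sub_cancel_right]
  have h2 : HexSpiral.S ((a + 1, b), 1) = ((a + 1 - 1, b + 1), 0) := if_pos this
  rw [h2, add_sub_cancel_right]
theorem S2c {a b : ℤ} (h : ¬ HexSpiral.O a b) : HexSpiral.S ((a, b + 1), 2) = ((a, b + 1), 0) := by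
  have : ¬ HexSpiral.O a (b + 1 - 1) := by rwa [add_sub_cancel_right]
  exact if_neg this
theorem S2o {a b : ℤ} (h : HexSpiral.O a b) : HexSpiral.S ((a, b + 1), 2) = ((a, b), 1) := by
  have : HexSpiral.O a (b + 1 - 1) := by rwa [add_sub_cancel_right]
  have h2 : HexSpiral.S ((a, b + 1), 2) = ((a, b + 1 - 1), 1) := if_pos this
  rw [h2, add_sub_cancel_right]

/-- The step starting at the edge `x` in the local coordinates of the hexagon `(i, j)` in which it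
lies. -/
def Form (r τ : ℝ) (x : HexSpiral.E) (i j : ℤ) (p q : ℝ) : Prop :=
  (¬ HexSpiral.O i j ∧ x = ((i, j), 0) ∧ p = -1 / 3 + 2 * r / 3 - r * τ ∧
    q = -1 / 3 - r / 3 + r * τ) ∨
  (HexSpiral.O i j ∧ x = ((i, j), 0) ∧ p = -1 / 3 + 2 * r / 3 + (1 - r) * τ ∧
    q = -1 / 3 - r / 3) ∨
  (¬ HexSpiral.O i j ∧ x = ((i + 1, j), 1) ∧ p = 2 / 3 - r / 3 ∧
    q = -1 / 3 + 2 * r / 3 - r * τ) ∨
  (HexSpiral.O i j ∧ x = ((i + 1, j), 1) ∧ p = 2 / 3 - r / 3 - (1 - r) * τ ∧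
    q = -1 / 3 + 2 * r / 3 + (1 - r) * τ) ∨
  (¬ HexSpiral.O i j ∧ x = ((i, j + 1), 2) ∧ p = -1 / 3 - r / 3 + r * τ ∧
    q = 2 / 3 - r / 3) ∨
  (HexSpiral.O i j ∧ x = ((i, j + 1), 2) ∧ p = -1 / 3 - r / 3 ∧
    q = 2 / 3 - r / 3 - (1 - r) * τ)

theorem W_form {r τ : ℝ} {x : HexSpiral.E} {i j : ℤ} {p q : ℝ} (h : Form r τ x i j p q) :
    W r x τ = Q (i + p) (j + q) (-i - j - p - q) := by
  rcases h with ⟨ho, rfl, rfl, rfl⟩ | ⟨ho, rfl, rfl, rfl⟩ | ⟨ho, rfl, rfl, rfl⟩ |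
    ⟨ho, rfl, rfl, rfl⟩ | ⟨ho, rfl, rfl, rfl⟩ | ⟨ho, rfl, rfl, rfl⟩
  · apply ext3
    · rw [X_Q0 (by ring), W_coord, S0c ho, (P0 _ _ _).1, (P1 _ _ _).1]; ring
    · rw [X_Q1 (by ring), W_coord, S0c ho, (P0 _ _ _).2, (P1 _ _ _).2]; ring
  · apply ext3
    · rw [X_Q0 (by ring), W_coord, S0o ho, (P0 _ _ _).1, (P2 _ _ _).1]; push_cast; ring
    · rw [X_Q1 (by ring), W_coord, S0o ho, (P0 _ _ _).2, (P2 _ _ _).2]; ring
  · apply ext3
    · rw [X_Q0 (by ring), W_coord, S1c ho, (P1 _ _ _).1, (P2 _ _ _).1]; push_cast; ring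
    · rw [X_Q1 (by ring), W_coord, S1c ho, (P1 _ _ _).2, (P2 _ _ _).2]; push_cast; ring
  · apply ext3
    · rw [X_Q0 (by ring), W_coord, S1o ho, (P1 _ _ _).1, (P0 _ _ _).1]; push_cast; ring
    · rw [X_Q1 (by ring), W_coord, S1o ho, (P1 _ _ _).2, (P0 _ _ _).2]; push_cast; ring
  · apply ext3
    · rw [X_Q0 (by ring), W_coord, S2c ho, (P2 _ _ _).1, (P0 _ _ _).1]; push_cast; ring
    · rw [X_Q1 (by ring), W_coord, S2c ho, (P2 _ _ _).2, (P0 _ _ _).2]; push_cast; ring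
  · apply ext3
    · rw [X_Q0 (by ring), W_coord, S2o ho, (P2 _ _ _).1, (P1 _ _ _).1]; push_cast; ring
    · rw [X_Q1 (by ring), W_coord, S2o ho, (P2 _ _ _).2, (P1 _ _ _).2]; push_cast; ring

theorem form_exists (r τ : ℝ) (x : HexSpiral.E) : ∃ i j p q, Form r τ x i j p q := by
  obtain ⟨⟨a, b⟩, d⟩ := x
  have hd : d = 0 ∨ d = 1 ∨ d = 2 := by
    fin_cases d <;> simp
  rcases hd with rfl | rfl | rfl
  · by_cases h : HexSpiral.O a b
    · exact ⟨a, b, _, _, Or.inr (Or.inl ⟨h, rfl, rfl, rfl⟩)⟩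
    · exact ⟨a, b, _, _, Or.inl ⟨h, rfl, rfl, rfl⟩⟩
  · obtain ⟨c, rfl⟩ : ∃ c, a = c + 1 := ⟨a - 1, by ring⟩
    by_cases h : HexSpiral.O c b
    · exact ⟨c, b, _, _, Or.inr (Or.inr (Or.inr (Or.inl ⟨h, rfl, rfl, rfl⟩)))⟩
    · exact ⟨c, b, _, _, Or.inr (Or.inr (Or.inl ⟨h, rfl, rfl, rfl⟩))⟩
  · obtain ⟨c, rfl⟩ : ∃ c, b = c + 1 := ⟨b - 1, by ring⟩
    by_cases h : HexSpiral.O a c
    · exact ⟨a, c, _, _, Or.inr (Or.inr (Or.inr (Or.inr (Or.inr ⟨h, rfl, rfl, rfl⟩))))⟩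
    · exact ⟨a, c, _, _, Or.inr (Or.inr (Or.inr (Or.inr (Or.inl ⟨h, rfl, rfl, rfl⟩))))⟩

theorem prod_bounds {r τ : ℝ} (hr0 : 0 < r) (hr1 : r < 1) (ht0 : 0 ≤ τ) (ht1 : τ ≤ 1) :
    0 ≤ r * τ ∧ r * τ ≤ r ∧ 0 ≤ (1 - r) * τ ∧ (1 - r) * τ ≤ 1 - r := by
  refine ⟨by positivity, by nlinarith, mul_nonneg (by linarith) ht0, by nlinarith⟩

/-- The local coordinates determine the level, the edge and the parameter. -/
theorem form_unique {r r' τ τ' : ℝ} {x x' : HexSpiral.E} {i j : ℤ} {p q : ℝ}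
    (hr0 : 0 < r) (hr1 : r < 1) (hr0' : 0 < r') (hr1' : r' < 1)
    (ht0 : 0 ≤ τ) (ht1 : τ ≤ 1) (ht0' : 0 ≤ τ') (ht1' : τ' ≤ 1)
    (h : Form r τ x i j p q) (h' : Form r' τ' x' i j p q) : r = r' ∧ x = x' ∧ τ = τ' := by
  obtain ⟨a1, a2, a3, a4⟩ := prod_bounds hr0 hr1 ht0 ht1
  obtain ⟨b1, b2, b3, b4⟩ := prod_bounds hr0' hr1' ht0' ht1'
  have cl : r = r' → r * τ = r' * τ' → τ = τ' := by
    rintro rfl h
    exact mul_left_cancel₀ hr0.ne' h
  have cl' : r = r' → (1 - r) * τ = (1 - r') * τ' → τ = τ' := by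
    rintro rfl h
    have : (1 - r) ≠ 0 := by linarith
    exact mul_left_cancel₀ this h
  rcases h with ⟨ho, rfl, X1, Y1⟩ | ⟨ho, rfl, X1, Y1⟩ | ⟨ho, rfl, X1, Y1⟩ | ⟨ho, rfl, X1, Y1⟩ |
    ⟨ho, rfl, X1, Y1⟩ | ⟨ho, rfl, X1, Y1⟩ <;>
  rcases h' with ⟨ho', rfl, X2, Y2⟩ | ⟨ho', rfl, X2, Y2⟩ | ⟨ho', rfl, X2, Y2⟩ |
    ⟨ho', rfl, X2, Y2⟩ | ⟨ho', rfl, X2, Y2⟩ | ⟨ho', rfl, X2, Y2⟩ <;>
  first
  | exact absurd ho' ho
  | exact absurd ho ho'
  | (exfalso; linarith)
  | (have e1 : r = r' := by linarith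
     refine ⟨e1, rfl, ?_⟩
     first
     | exact cl e1 (by linarith)
     | exact cl' e1 (by linarith))

theorem form_Hx {r τ : ℝ} {x : HexSpiral.E} {i j : ℤ} {p q : ℝ} (hr0 : 0 < r) (hr1 : r < 1)
    (ht0 : 0 ≤ τ) (ht1 : τ ≤ 1) (h : Form r τ x i j p q) : Hx p q (-p - q) := by
  obtain ⟨a1, a2, a3, a4⟩ := prod_bounds hr0 hr1 ht0 ht1
  unfold Hx
  rw [abs_le, abs_le, abs_le]
  rcases h with ⟨-, -, X1, Y1⟩ | ⟨-, -, X1, Y1⟩ | ⟨-, -, X1, Y1⟩ | ⟨-, -, X1, Y1⟩ |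
    ⟨-, -, X1, Y1⟩ | ⟨-, -, X1, Y1⟩ <;>
    refine ⟨⟨?_, ?_⟩, ⟨?_, ?_⟩, ⟨?_, ?_⟩⟩ <;> linarith

/-- The strict inequalities. -/
def Hs (p q s : ℝ) : Prop :=
  (-1 < s - p ∧ s - p < 1) ∧ (-1 < s - q ∧ s - q < 1) ∧ (-1 < q - p ∧ q - p < 1)

theorem form_Hs {r τ : ℝ} {x : HexSpiral.E} {i j : ℤ} {p q : ℝ} (hr0 : 0 < r) (hr1 : r < 1)
    (ht0 : 0 < τ) (ht1 : τ < 1) (h : Form r τ x i j p q) : Hs p q (-p - q) := by
  have a0 : 0 < r * τ := mul_pos hr0 ht0
  have a1 : r * τ < r := by nlinarith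
  have b0 : 0 < (1 - r) * τ := mul_pos (by linarith) ht0
  have b1 : (1 - r) * τ < 1 - r := by nlinarith
  unfold Hs
  rcases h with ⟨-, -, X1, Y1⟩ | ⟨-, -, X1, Y1⟩ | ⟨-, -, X1, Y1⟩ | ⟨-, -, X1, Y1⟩ |
    ⟨-, -, X1, Y1⟩ | ⟨-, -, X1, Y1⟩ <;>
    refine ⟨⟨?_, ?_⟩, ⟨?_, ?_⟩, ⟨?_, ?_⟩⟩ <;> linarith

theorem W_zero (r : ℝ) (x : HexSpiral.E) : W r x 0 = P r x := by simp [W]

theorem Q_inj {a b c a' b' c' : ℝ} (h : a + b + c = 0) (h' : a' + b' + c' = 0)
    (e : Q a b c = Q a' b' c') : a = a' ∧ b = b' ∧ c = c' := by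
  have e0 := congrArg (fun z => X z 0) e
  have e1 := congrArg (fun z => X z 1) e
  have e2 := congrArg (fun z => X z 2) e
  simp only [X_Q0 h, X_Q1 h, X_Q2 h, X_Q0 h', X_Q1 h', X_Q2 h'] at e0 e1 e2
  exact ⟨e0, e1, e2⟩

/-- An integer in an open interval. -/
theorem int_lt {m n : ℤ} (h : (m : ℝ) < n) : m < n := by exact_mod_cast h

theorem P_inj {r r' : ℝ} {x x' : HexSpiral.E} (hr0 : 0 < r) (hr1 : r < 1) (hr0' : 0 < r')
    (hr1' : r' < 1) (h : P r x = P r' x') : r = r' ∧ x = x' := by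
  obtain ⟨⟨a, b⟩, d⟩ := x
  obtain ⟨⟨a', b'⟩, d'⟩ := x'
  have e0 := congrArg (fun z => X z 0) h
  have e1 := congrArg (fun z => X z 1) h
  have hd : d = 0 ∨ d = 1 ∨ d = 2 := by
    fin_cases d <;> simp
  have hd' : d' = 0 ∨ d' = 1 ∨ d' = 2 := by
    fin_cases d' <;> simp
  rcases hd with rfl | rfl | rfl <;> rcases hd' with rfl | rfl | rfl <;>
    simp only [(P0 _ _ _).1, (P0 _ _ _).2, (P1 _ _ _).1, (P1 _ _ _).2, (P2 _ _ _).1,
      (P2 _ _ _).2] at e0 e1
  · -- X0 - X1 = a - b + r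
    have i1 : ((a - b : ℤ) : ℝ) < (a' - b' + 1 : ℤ) := by push_cast; linarith
    have i2 : ((a' - b' : ℤ) : ℝ) < (a - b + 1 : ℤ) := by push_cast; linarith
    have j1 := int_lt i1
    have j2 := int_lt i2
    have e : a - b = a' - b' := by omega
    have er : (a : ℝ) - b = a' - b' := by exact_mod_cast e
    have hr : r = r' := by linarith
    have hb : (b : ℝ) = b' := by linarith
    have hb' : b = b' := by exact_mod_cast hb
    obtain rfl := hb'
    obtain rfl : a = a' := by omega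
    exact ⟨hr, rfl⟩
  · exfalso
    -- X0 - X2 : a + a + b - 1 + r = a' + a' + b' - 1
    have e2 : ((2 * a + b : ℤ) : ℝ) + r = (2 * a' + b' : ℤ) := by push_cast; linarith
    have j1 := int_lt (m := 2 * a + b) (n := 2 * a' + b') (by linarith)
    have j2 := int_lt (m := 2 * a' + b') (n := 2 * a + b + 1) (by push_cast at e2 ⊢; linarith)
    omega
  · exfalso
    have e2 : ((a - b : ℤ) : ℝ) + r = (a' - b' : ℤ) := by push_cast; linarith
    have j1 := int_lt (m := a - b) (n := a' - b') (by linarith)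
    have j2 := int_lt (m := a' - b') (n := a - b + 1) (by push_cast at e2 ⊢; linarith)
    omega
  · exfalso
    have e2 : ((2 * a' + b' : ℤ) : ℝ) + r' = (2 * a + b : ℤ) := by push_cast; linarith
    have j1 := int_lt (m := 2 * a' + b') (n := 2 * a + b) (by linarith)
    have j2 := int_lt (m := 2 * a + b) (n := 2 * a' + b' + 1) (by push_cast at e2 ⊢; linarith)
    omega
  · have i1 : ((b - a : ℤ) : ℝ) < (b' - a' + 1 : ℤ) := by push_cast; linarith
    have i2 : ((b' - a' : ℤ) : ℝ) < (b - a + 1 : ℤ) := by push_cast; linarith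
    have j1 := int_lt i1
    have j2 := int_lt i2
    have e : b - a = b' - a' := by omega
    have er : (b : ℝ) - a = b' - a' := by exact_mod_cast e
    have hr : r = r' := by linarith
    have hb : (a : ℝ) = a' := by linarith
    have hb' : a = a' := by exact_mod_cast hb
    obtain rfl := hb'
    obtain rfl : b = b' := by omega
    exact ⟨hr, rfl⟩
  · exfalso
    have e2 : ((b - a : ℤ) : ℝ) + r = (b' - a' : ℤ) := by push_cast; linarith
    have j1 := int_lt (m := b - a) (n := b' - a') (by linarith)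
    have j2 := int_lt (m := b' - a') (n := b - a + 1) (by push_cast at e2 ⊢; linarith)
    omega
  · exfalso
    have e2 : ((a' - b' : ℤ) : ℝ) + r' = (a - b : ℤ) := by push_cast; linarith
    have j1 := int_lt (m := a' - b') (n := a - b) (by linarith)
    have j2 := int_lt (m := a - b) (n := a' - b' + 1) (by push_cast at e2 ⊢; linarith)
    omega
  · exfalso
    have e2 : ((b' - a' : ℤ) : ℝ) + r' = (b - a : ℤ) := by push_cast; linarith
    have j1 := int_lt (m := b' - a') (n := b - a) (by linarith)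
    have j2 := int_lt (m := b - a) (n := b' - a' + 1) (by push_cast at e2 ⊢; linarith)
    omega
  · have e : (a : ℝ) - b = a' - b' := by linarith
    have e' : a - b = a' - b' := by exact_mod_cast e
    -- X2 - X0 = 1 - 2 a - b + r
    have i1 : ((-2 * a - b : ℤ) : ℝ) < (-2 * a' - b' + 1 : ℤ) := by push_cast; linarith
    have i2 : ((-2 * a' - b' : ℤ) : ℝ) < (-2 * a - b + 1 : ℤ) := by push_cast; linarith
    have j1 := int_lt i1
    have j2 := int_lt i2
    obtain rfl : a = a' := by omega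
    obtain rfl : b = b' := by omega
    exact ⟨by linarith, rfl⟩

/-- Crossing points are not interior points of hexagons. -/
theorem P_not_interior {r : ℝ} {x : HexSpiral.E} (hr0 : 0 < r) (hr1 : r < 1) {i j : ℤ} {p q : ℝ}
    (hs : Hs p q (-p - q)) : P r x ≠ Q (i + p) (j + q) (-i - j - p - q) := by
  intro e
  obtain ⟨⟨a, b⟩, d⟩ := x
  obtain ⟨⟨s1, s2⟩, ⟨s3, s4⟩, ⟨s5, s6⟩⟩ := hs
  have e0 := congrArg (fun z => X z 0) e
  have e1 := congrArg (fun z => X z 1) e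
  have hd : d = 0 ∨ d = 1 ∨ d = 2 := by
    fin_cases d <;> simp
  simp only [X_Q0 (show (i : ℝ) + p + (j + q) + (-i - j - p - q) = 0 by ring),
    X_Q1 (show (i : ℝ) + p + (j + q) + (-i - j - p - q) = 0 by ring)] at e0 e1
  rcases hd with rfl | rfl | rfl <;>
    simp only [(P0 _ _ _).1, (P0 _ _ _).2, (P1 _ _ _).1, (P1 _ _ _).2, (P2 _ _ _).1,
      (P2 _ _ _).2] at e0 e1
  · have k1 := int_lt (m := a - b) (n := i - j + 1) (by push_cast; linarith)
    have k2 := int_lt (m := i - j - 2) (n := a - b) (by push_cast; linarith)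
    have k3 := int_lt (m := 1 - a - 2 * b) (n := -i - 2 * j + 1) (by push_cast; linarith)
    have k4 := int_lt (m := -i - 2 * j - 1) (n := 1 - a - 2 * b) (by push_cast; linarith)
    have k5 := int_lt (m := 1 - 2 * a - b) (n := -2 * i - j + 2) (by push_cast; linarith)
    have k6 := int_lt (m := -2 * i - j - 1) (n := 1 - 2 * a - b) (by push_cast; linarith)
    omega
  · have k1 := int_lt (m := b - a) (n := j - i + 1) (by push_cast; linarith)
    have k2 := int_lt (m := j - i - 2) (n := b - a) (by push_cast; linarith)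
    have k3 := int_lt (m := 1 - 2 * a - b) (n := -2 * i - j + 1) (by push_cast; linarith)
    have k4 := int_lt (m := -2 * i - j - 1) (n := 1 - 2 * a - b) (by push_cast; linarith)
    have k5 := int_lt (m := 1 - a - 2 * b) (n := -i - 2 * j + 2) (by push_cast; linarith)
    have k6 := int_lt (m := -i - 2 * j - 1) (n := 1 - a - 2 * b) (by push_cast; linarith)
    omega
  · have k1 := int_lt (m := b - a) (n := j - i + 1) (by push_cast; linarith)
    have k2 := int_lt (m := j - i - 1) (n := b - a) (by push_cast; linarith)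
    have k3 := int_lt (m := 1 - 2 * a - b) (n := -2 * i - j + 1) (by push_cast; linarith)
    have k4 := int_lt (m := -2 * i - j - 2) (n := 1 - 2 * a - b) (by push_cast; linarith)
    have k5 := int_lt (m := 1 - a - 2 * b) (n := -i - 2 * j + 1) (by push_cast; linarith)
    have k6 := int_lt (m := -i - 2 * j - 2) (n := 1 - a - 2 * b) (by push_cast; linarith)
    omega

theorem W_inj {r r' τ τ' : ℝ} {x x' : HexSpiral.E} (hr0 : 0 < r) (hr1 : r < 1)
    (hr0' : 0 < r') (hr1' : r' < 1) (ht0 : 0 ≤ τ) (ht1 : τ < 1) (ht0' : 0 ≤ τ') (ht1' : τ' < 1)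
    (h : W r x τ = W r' x' τ') : r = r' ∧ x = x' ∧ τ = τ' := by
  rcases ht0.eq_or_lt with rfl | hp <;> rcases ht0'.eq_or_lt with rfl | hp'
  · rw [W_zero, W_zero] at h
    obtain ⟨h1, h2⟩ := P_inj hr0 hr1 hr0' hr1' h
    exact ⟨h1, h2, rfl⟩
  · exfalso
    rw [W_zero] at h
    obtain ⟨i, j, p, q, hf⟩ := form_exists r' τ' x'
    rw [W_form hf] at h
    exact P_not_interior hr0 hr1 (form_Hs hr0' hr1' hp' ht1' hf) h
  · exfalso
    rw [W_zero] at h
    obtain ⟨i, j, p, q, hf⟩ := form_exists r τ x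
    rw [W_form hf] at h
    exact P_not_interior hr0' hr1' (form_Hs hr0 hr1 hp ht1 hf) h.symm
  · obtain ⟨i, j, p, q, hf⟩ := form_exists r τ x
    obtain ⟨i', j', p', q', hf'⟩ := form_exists r' τ' x'
    obtain ⟨⟨s1, s2⟩, ⟨s3, s4⟩, ⟨s5, s6⟩⟩ := form_Hs hr0 hr1 hp ht1 hf
    obtain ⟨⟨t1, t2⟩, ⟨t3, t4⟩, ⟨t5, t6⟩⟩ := form_Hs hr0' hr1' hp' ht1' hf'
    rw [W_form hf, W_form hf'] at h
    obtain ⟨e0, e1, e2⟩ := Q_inj (by ring) (by ring) h
    have k1 := int_lt (m := i - j) (n := i' - j' + 2) (by push_cast; linarith)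
    have k2 := int_lt (m := i' - j') (n := i - j + 2) (by push_cast; linarith)
    have k3 := int_lt (m := i + 2 * j) (n := i' + 2 * j' + 2) (by push_cast; linarith)
    have k4 := int_lt (m := i' + 2 * j') (n := i + 2 * j + 2) (by push_cast; linarith)
    have k5 := int_lt (m := 2 * i + j) (n := 2 * i' + j' + 2) (by push_cast; linarith)
    have k6 := int_lt (m := 2 * i' + j') (n := 2 * i + j + 2) (by push_cast; linarith)
    obtain rfl : i = i' := by omega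
    obtain rfl : j = j' := by omega
    obtain rfl : p = p' := by linarith
    obtain rfl : q = q' := by linarith
    exact form_unique hr0 hr1 hr0' hr1' hp.le ht1.le hp'.le ht1'.le hf hf'

/-- The corners of the curve of level `r`. -/
noncomputable def cn (r : ℝ) (k : ℤ) : Plane := P r (HexSpiral.ε k)

theorem path_eq (r : ℝ) (t : ℝ) :
    Polyline.path (cn r) t = W r (HexSpiral.ε ⌊t⌋) (Int.fract t) := by
  rw [Polyline.path, cn, cn, HexSpiral.ε_succ]
  rfl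

theorem path_inj {r r' t t' : ℝ} (hr0 : 0 < r) (hr1 : r < 1) (hr0' : 0 < r') (hr1' : r' < 1)
    (h : Polyline.path (cn r) t = Polyline.path (cn r') t') : r = r' ∧ t = t' := by
  rw [path_eq, path_eq] at h
  obtain ⟨h1, h2, h3⟩ := W_inj hr0 hr1 hr0' hr1' (Int.fract_nonneg t) (Int.fract_lt_one t)
    (Int.fract_nonneg t') (Int.fract_lt_one t') h
  refine ⟨h1, ?_⟩
  have h4 := HexSpiral.ε_inj h2
  rw [← Int.floor_add_fract t, ← Int.floor_add_fract t', h4, h3]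

theorem dist_Q {a b c a' b' c' : ℝ} (h : a + b + c = 0) (h' : a' + b' + c' = 0) :
    dist (Q a b c) (Q a' b' c') ^ 2 = 2 * ((a - a') ^ 2 + (b - b') ^ 2 + (c - c') ^ 2) := by
  rw [dist_X, Fin.sum_univ_three, X_Q0 h, X_Q1 h, X_Q2 h, X_Q0 h', X_Q1 h', X_Q2 h']

theorem W_one (r : ℝ) (x : HexSpiral.E) : W r x 1 = P r (HexSpiral.S x) := by simp [W]

theorem dist_P (r : ℝ) (hr0 : 0 < r) (hr1 : r < 1) (x : HexSpiral.E) :
    dist (P r x) (P r (HexSpiral.S x)) ≤ 2 := by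
  have hle : dist (P r x) (P r (HexSpiral.S x)) ^ 2 ≤ 2 ^ 2 := by
    rw [← W_one, ← W_zero]
    obtain ⟨⟨a, b⟩, d⟩ := x
    have hd : d = 0 ∨ d = 1 ∨ d = 2 := by
      fin_cases d <;> simp
    rcases hd with rfl | rfl | rfl
    · by_cases h : HexSpiral.O a b
      · have f0 : Form r 0 ((a, b), 0) a b _ _ := Or.inr (Or.inl ⟨h, rfl, rfl, rfl⟩)
        have f1 : Form r 1 ((a, b), 0) a b _ _ := Or.inr (Or.inl ⟨h, rfl, rfl, rfl⟩)
        rw [W_form f0, W_form f1, dist_Q (by ring) (by ring)]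
        nlinarith
      · have f0 : Form r 0 ((a, b), 0) a b _ _ := Or.inl ⟨h, rfl, rfl, rfl⟩
        have f1 : Form r 1 ((a, b), 0) a b _ _ := Or.inl ⟨h, rfl, rfl, rfl⟩
        rw [W_form f0, W_form f1, dist_Q (by ring) (by ring)]
        nlinarith
    · obtain ⟨c, rfl⟩ : ∃ c, a = c + 1 := ⟨a - 1, by ring⟩
      by_cases h : HexSpiral.O c b
      · have f0 : Form r 0 ((c + 1, b), 1) c b _ _ :=
          Or.inr (Or.inr (Or.inr (Or.inl ⟨h, rfl, rfl, rfl⟩)))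
        have f1 : Form r 1 ((c + 1, b), 1) c b _ _ :=
          Or.inr (Or.inr (Or.inr (Or.inl ⟨h, rfl, rfl, rfl⟩)))
        rw [W_form f0, W_form f1, dist_Q (by ring) (by ring)]
        nlinarith
      · have f0 : Form r 0 ((c + 1, b), 1) c b _ _ :=
          Or.inr (Or.inr (Or.inl ⟨h, rfl, rfl, rfl⟩))
        have f1 : Form r 1 ((c + 1, b), 1) c b _ _ :=
          Or.inr (Or.inr (Or.inl ⟨h, rfl, rfl, rfl⟩))
        rw [W_form f0, W_form f1, dist_Q (by ring) (by ring)]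
        nlinarith
    · obtain ⟨c, rfl⟩ : ∃ c, b = c + 1 := ⟨b - 1, by ring⟩
      by_cases h : HexSpiral.O a c
      · have f0 : Form r 0 ((a, c + 1), 2) a c _ _ :=
          Or.inr (Or.inr (Or.inr (Or.inr (Or.inr ⟨h, rfl, rfl, rfl⟩))))
        have f1 : Form r 1 ((a, c + 1), 2) a c _ _ :=
          Or.inr (Or.inr (Or.inr (Or.inr (Or.inr ⟨h, rfl, rfl, rfl⟩))))
        rw [W_form f0, W_form f1, dist_Q (by ring) (by ring)]
        nlinarith
      · have f0 : Form r 0 ((a, c + 1), 2) a c _ _ :=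
          Or.inr (Or.inr (Or.inr (Or.inr (Or.inl ⟨h, rfl, rfl, rfl⟩))))
        have f1 : Form r 1 ((a, c + 1), 2) a c _ _ :=
          Or.inr (Or.inr (Or.inr (Or.inr (Or.inl ⟨h, rfl, rfl, rfl⟩))))
        rw [W_form f0, W_form f1, dist_Q (by ring) (by ring)]
        nlinarith
  exact (pow_le_pow_iff_left₀ dist_nonneg (by norm_num) two_ne_zero).1 hle

theorem abs_X_le (z : Plane) (i : Fin 3) : |X z i| ≤ ‖z‖ := by
  have h := dist_X z 0
  rw [dist_zero_right] at h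
  have h0 : ∀ i, X 0 i = 0 := by
    intro i
    simp [X]
  have h1 : (X z i) ^ 2 ≤ ∑ j, (X z j - X 0 j) ^ 2 := by
    have := Finset.single_le_sum (f := fun j => (X z j - X 0 j) ^ 2)
      (fun j _ => sq_nonneg _) (Finset.mem_univ i)
    simpa [h0] using this
  have h2 : |X z i| ^ 2 ≤ ‖z‖ ^ 2 := by
    rw [sq_abs, h]
    have : 0 ≤ (X z i) ^ 2 := sq_nonneg _
    linarith
  exact (pow_le_pow_iff_left₀ (abs_nonneg _) (norm_nonneg _) two_ne_zero).1 h2

theorem finite_cn (r : ℝ) (hr0 : 0 < r) (hr1 : r < 1) (R : ℝ) : {k : ℤ | ‖cn r k‖ ≤ R}.Finite := by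
  have hA : {x : HexSpiral.E | ‖P r x‖ ≤ R}.Finite := by
    apply (((Set.finite_Icc (-(⌈R⌉ + 1)) (⌈R⌉ + 1)).prod
      (Set.finite_Icc (-(⌈R⌉ + 1)) (⌈R⌉ + 1))).prod (Set.finite_univ (α := Fin 3))).subset
    rintro ⟨⟨a, b⟩, d⟩ h
    have h' : ‖P r ((a, b), d)‖ ≤ R := h
    have h0 := (abs_X_le _ 0).trans (h'.trans (Int.le_ceil R))
    have h1 := (abs_X_le _ 1).trans (h'.trans (Int.le_ceil R))
    rw [abs_le] at h0 h1
    obtain ⟨h2, h3⟩ := h0
    obtain ⟨h4, h5⟩ := h1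
    have hd : d = 0 ∨ d = 1 ∨ d = 2 := by
      fin_cases d <;> simp
    have key : -((⌈R⌉ : ℝ) + 1) ≤ a ∧ (a : ℝ) ≤ ⌈R⌉ + 1 ∧ -((⌈R⌉ : ℝ) + 1) ≤ b ∧
        (b : ℝ) ≤ ⌈R⌉ + 1 := by
      rcases hd with rfl | rfl | rfl
      · rw [(P0 _ _ _).1] at h2 h3
        rw [(P0 _ _ _).2] at h4 h5
        refine ⟨?_, ?_, ?_, ?_⟩ <;> linarith
      · rw [(P1 _ _ _).1] at h2 h3
        rw [(P1 _ _ _).2] at h4 h5
        refine ⟨?_, ?_, ?_, ?_⟩ <;> linarith
      · rw [(P2 _ _ _).1] at h2 h3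
        rw [(P2 _ _ _).2] at h4 h5
        refine ⟨?_, ?_, ?_, ?_⟩ <;> linarith
    obtain ⟨k1, k2, k3, k4⟩ := key
    refine ⟨⟨⟨?_, ?_⟩, ⟨?_, ?_⟩⟩, trivial⟩
    · exact_mod_cast k1
    · exact_mod_cast k2
    · exact_mod_cast k3
    · exact_mod_cast k4
  exact hA.preimage HexSpiral.ε_inj.injOn

/-- The curve of level `r`. -/
noncomputable def curve (r : ℝ) : Set Plane := Set.range (Polyline.path (cn r))

theorem isCurve_curve {r : ℝ} (hr0 : 0 < r) (hr1 : r < 1) : IsCurve (curve r) := by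
  left
  refine ⟨Polyline.path (cn r), ?_, rfl⟩
  have h := Polyline.isClosedEmbedding_path (id : ℝ → ℝ) Topology.IsClosedEmbedding.id (cn r) 2
    (fun k => by rw [cn, cn, HexSpiral.ε_succ]; exact dist_P r hr0 hr1 _) (finite_cn r hr0 hr1)
    (fun t t' h => (path_inj hr0 hr1 hr0 hr1 h).2)
  exact h

theorem mem_curve (r : ℝ) (z : Plane) :
    z ∈ curve r ↔ ∃ (x : HexSpiral.E) (τ : ℝ), 0 ≤ τ ∧ τ ≤ 1 ∧ z = W r x τ := by
  rw [curve, Polyline.range_path, Set.mem_iUnion]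
  constructor
  · rintro ⟨k, τ, ⟨h0, h1⟩, rfl⟩
    refine ⟨HexSpiral.ε k, τ, h0, h1, ?_⟩
    simp only [cn, HexSpiral.ε_succ]
    rfl
  · rintro ⟨x, τ, h0, h1, rfl⟩
    obtain ⟨k, rfl⟩ := HexSpiral.ε_surj x
    refine ⟨k, τ, ⟨h0, h1⟩, ?_⟩
    simp only [cn, HexSpiral.ε_succ]
    rfl

/-! ### The marking -/

/-- The arc of level `r` around the vertex number `m` of the hexagon. -/
def arc (r : ℝ) (m : Fin 3) : Set Plane := {z | z ∈ H ∧ X z m = 2 / 3 - r / 3}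

/-- The levels. -/
noncomputable def lev (n : ℕ) (k : Fin n) : ℝ := ((k : ℝ) + 1) / (n + 1)

theorem lev_pos {n : ℕ} (k : Fin n) : 0 < lev n k := by
  unfold lev
  positivity

theorem lev_lt {n : ℕ} (k : Fin n) : lev n k < 1 := by
  unfold lev
  have h : ((k : ℕ) : ℝ) + 1 ≤ n := by exact_mod_cast k.2
  rw [div_lt_one (by positivity)]
  linarith

theorem lev_rev {n : ℕ} (k : Fin n) : lev n k.rev = 1 - lev n k := by
  unfold lev
  have h : (k : ℕ) + 1 ≤ n := k.2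
  rw [Fin.val_rev, Nat.cast_sub h]
  push_cast
  field_simp
  ring

theorem lev_inj {n : ℕ} {k l : Fin n} (h : lev n k = lev n l) : k = l := by
  unfold lev at h
  have hn : (n : ℝ) + 1 ≠ 0 := by positivity
  have h2 : ((k : ℕ) : ℝ) + 1 = (l : ℕ) + 1 := by
    field_simp at h
    exact h
  have h3 : ((k : ℕ) : ℝ) = (l : ℕ) := by linarith
  exact Fin.ext (by exact_mod_cast h3)

/-- The marking with `3 n` arcs. -/
def mark (n : ℕ) : Set (Set Plane) := Set.range fun q : Fin n × Fin 3 => arc (lev n q.1) q.2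

theorem Q_eq (a b c : ℝ) : Q a b c = pt (c - a) (-(√3 * b)) := rfl

theorem isArc_of (a b c : ℝ → ℝ) (ha : Continuous a) (hb : Continuous b) (hc : Continuous c)
    (hs : ∀ t, a t + b t + c t = 0) (hinj : ∀ t s, a t = a s → b t = b s → c t = c s → t = s)
    (A : Set Plane) (hA : ∀ z, z ∈ A ↔ ∃ t, 0 ≤ t ∧ t ≤ 1 ∧ X z 0 = a t ∧ X z 1 = b t) :
    IsArc A := by
  have hcont : Continuous fun t : Set.Icc (0 : ℝ) 1 => Q (a t.1) (b t.1) (c t.1) := by
    simp only [Q_eq]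
    unfold pt
    fun_prop
  have hi : Function.Injective fun t : Set.Icc (0 : ℝ) 1 => Q (a t.1) (b t.1) (c t.1) := by
    intro t s h
    obtain ⟨h1, h2, h3⟩ := Q_inj (hs _) (hs _) h
    exact Subtype.ext (hinj _ _ h1 h2 h3)
  have he := hcont.isClosedEmbedding hi
  refine ⟨he.isEmbedding.toHomeomorph.trans (Homeomorph.setCongr ?_)⟩
  ext z
  rw [hA]
  constructor
  · rintro ⟨t, rfl⟩
    exact ⟨t.1, t.2.1, t.2.2, X_Q0 (hs _), X_Q1 (hs _)⟩
  · rintro ⟨t, h0, h1, h2, h3⟩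
    refine ⟨⟨t, h0, h1⟩, ?_⟩
    apply ext3
    · change X (Q _ _ _) 0 = _
      rw [X_Q0 (hs _), h2]
    · change X (Q _ _ _) 1 = _
      rw [X_Q1 (hs _), h3]

theorem isArc_arc {r : ℝ} (hr0 : 0 < r) (hr1 : r < 1) (m : Fin 3) : IsArc (arc r m) := by
  have hdiv : ∀ y : ℝ, r * (y / r) = y := fun y => by field_simp
  have hm : m = 0 ∨ m = 1 ∨ m = 2 := by
    fin_cases m <;> simp
  rcases hm with rfl | rfl | rfl
  · apply isArc_of (fun _ => 2 / 3 - r / 3) (fun t => -1 / 3 + 2 * r / 3 - r * t)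
      (fun t => -1 / 3 - r / 3 + r * t) (by fun_prop) (by fun_prop) (by fun_prop)
      (fun t => by ring) (fun t s _ h2 _ => mul_left_cancel₀ hr0.ne' (by linarith))
    intro z
    have hs := X_sum z
    constructor
    · rintro ⟨hz, h⟩
      rw [mem_H] at hz
      obtain ⟨h1, h2, h3⟩ := hz
      rw [abs_le] at h1 h2 h3
      refine ⟨(X z 2 + 1 / 3 + r / 3) / r, div_nonneg (by linarith) hr0.le,
        (div_le_one hr0).2 (by linarith), h, ?_⟩
      simp only [hdiv]; linarith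
    · rintro ⟨t, h0, h1, h2, h3⟩
      have g1 : 0 ≤ r * t := by positivity
      have g2 : r * t ≤ r := by nlinarith
      refine ⟨?_, h2⟩
      rw [mem_H]
      refine ⟨abs_le.2 ⟨?_, ?_⟩, abs_le.2 ⟨?_, ?_⟩, abs_le.2 ⟨?_, ?_⟩⟩ <;> linarith
  · apply isArc_of (fun t => -1 / 3 - r / 3 + r * t) (fun _ => 2 / 3 - r / 3)
      (fun t => -1 / 3 + 2 * r / 3 - r * t) (by fun_prop) (by fun_prop) (by fun_prop)
      (fun t => by ring) (fun t s h2 _ _ => mul_left_cancel₀ hr0.ne' (by linarith))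
    intro z
    have hs := X_sum z
    constructor
    · rintro ⟨hz, h⟩
      rw [mem_H] at hz
      obtain ⟨h1, h2, h3⟩ := hz
      rw [abs_le] at h1 h2 h3
      refine ⟨(X z 0 + 1 / 3 + r / 3) / r, div_nonneg (by linarith) hr0.le,
        (div_le_one hr0).2 (by linarith), ?_, h⟩
      simp only [hdiv]; linarith
    · rintro ⟨t, h0, h1, h2, h3⟩
      have g1 : 0 ≤ r * t := by positivity
      have g2 : r * t ≤ r := by nlinarith
      refine ⟨?_, h3⟩
      rw [mem_H]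
      refine ⟨abs_le.2 ⟨?_, ?_⟩, abs_le.2 ⟨?_, ?_⟩, abs_le.2 ⟨?_, ?_⟩⟩ <;> linarith
  · apply isArc_of (fun t => -1 / 3 + 2 * r / 3 - r * t) (fun t => -1 / 3 - r / 3 + r * t)
      (fun _ => 2 / 3 - r / 3) (by fun_prop) (by fun_prop) (by fun_prop)
      (fun t => by ring) (fun t s _ h2 _ => mul_left_cancel₀ hr0.ne' (by linarith))
    intro z
    have hs := X_sum z
    constructor
    · rintro ⟨hz, h⟩
      rw [mem_H] at hz
      obtain ⟨h1, h2, h3⟩ := hz
      rw [abs_le] at h1 h2 h3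
      refine ⟨(X z 1 + 1 / 3 + r / 3) / r, div_nonneg (by linarith) hr0.le,
        (div_le_one hr0).2 (by linarith), ?_, ?_⟩
      · simp only [hdiv]; linarith
      · simp only [hdiv]; linarith
    · rintro ⟨t, h0, h1, h2, h3⟩
      have g1 : 0 ≤ r * t := by positivity
      have g2 : r * t ≤ r := by nlinarith
      refine ⟨?_, by linarith⟩
      rw [mem_H]
      refine ⟨abs_le.2 ⟨?_, ?_⟩, abs_le.2 ⟨?_, ?_⟩, abs_le.2 ⟨?_, ?_⟩⟩ <;> linarith

theorem isMarking_mark {n : ℕ} (hn : 0 < n) : IsMarking (mark n) := by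
  refine ⟨Set.finite_range _, ⟨_, ⟨(⟨0, hn⟩, 0), rfl⟩⟩, ?_⟩
  rintro _ ⟨⟨k, m⟩, rfl⟩
  exact ⟨isArc_arc (lev_pos k) (lev_lt k) m, fun z hz => hz.1⟩

/-- The centre of a hexagon. -/
noncomputable def C (h : ℤ × ℤ) : Plane := Q h.1 h.2 (-h.1 - h.2)

theorem C0 (h : ℤ × ℤ) : X (C h) 0 = h.1 := X_Q0 (by ring)
theorem C1 (h : ℤ × ℤ) : X (C h) 1 = h.2 := X_Q1 (by ring)

/-- The isometry of the tile `h`. -/
noncomputable def σ (h : ℤ × ℤ) : Plane ≃ᵢ Plane :=
  if HexSpiral.O h.1 h.2 then IsometryEquiv.subLeft (C h) else IsometryEquiv.addRight (C h)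

theorem mem_σ_open {i j : ℤ} (h : HexSpiral.O i j) (A : Set Plane) (p q : ℝ) :
    Q (i + p) (j + q) (-i - j - p - q) ∈ σ (i, j) '' A ↔ Q (-p) (-q) (p + q) ∈ A := by
  have e : ∀ z, σ (i, j) z = C (i, j) - z := by
    intro z
    rw [σ, if_pos h]
    rfl
  constructor
  · rintro ⟨w, hw, hz⟩
    rw [e] at hz
    have : w = Q (-p) (-q) (p + q) := by
      have hw' : w = C (i, j) - Q (i + p) (j + q) (-i - j - p - q) := by rw [← hz]; abel
      rw [hw']
      apply ext3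
      · rw [X_sub, C0, X_Q0 (by ring), X_Q0 (by ring)]; ring
      · rw [X_sub, C1, X_Q1 (by ring), X_Q1 (by ring)]; ring
    rwa [← this]
  · intro hA
    refine ⟨_, hA, ?_⟩
    rw [e]
    apply ext3
    · rw [X_sub, C0, X_Q0 (by ring), X_Q0 (by ring)]; ring
    · rw [X_sub, C1, X_Q1 (by ring), X_Q1 (by ring)]; ring

theorem mem_σ_closed {i j : ℤ} (h : ¬ HexSpiral.O i j) (A : Set Plane) (p q : ℝ) :
    Q (i + p) (j + q) (-i - j - p - q) ∈ σ (i, j) '' A ↔ Q p q (-p - q) ∈ A := by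
  have e : ∀ z, σ (i, j) z = z + C (i, j) := by
    intro z
    rw [σ, if_neg h]
    rfl
  constructor
  · rintro ⟨w, hw, hz⟩
    rw [e] at hz
    have : w = Q p q (-p - q) := by
      have hw' : w = Q (i + p) (j + q) (-i - j - p - q) - C (i, j) := by rw [← hz]; abel
      rw [hw']
      apply ext3
      · rw [X_sub, C0, X_Q0 (by ring), X_Q0 (by ring)]; ring
      · rw [X_sub, C1, X_Q1 (by ring), X_Q1 (by ring)]; ring
    rwa [← this]
  · intro hA
    refine ⟨_, hA, ?_⟩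
    rw [e]
    apply ext3
    · rw [X_add, C0, X_Q0 (by ring), X_Q0 (by ring)]; ring
    · rw [X_add, C1, X_Q1 (by ring), X_Q1 (by ring)]; ring

theorem local_eq (i j : ℤ) (z : Plane) : z = Q (i + (X z 0 - i)) (j + (X z 1 - j))
    (-i - j - (X z 0 - i) - (X z 1 - j)) := by
  apply ext3
  · rw [X_Q0 (by ring)]; ring
  · rw [X_Q1 (by ring)]; ring

theorem mem_H_Q (p q s : ℝ) (h : p + q + s = 0) : Q p q s ∈ H ↔ Hx p q s := by
  rw [mem_H, X_Q0 h, X_Q1 h, X_Q2 h]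

theorem mem_tile (i j : ℤ) (p q : ℝ) :
    Q (i + p) (j + q) (-i - j - p - q) ∈ σ (i, j) '' H ↔ Hx p q (-p - q) := by
  by_cases h : HexSpiral.O i j
  · rw [mem_σ_open h, mem_H_Q _ _ _ (by ring)]
    unfold Hx
    rw [abs_le, abs_le, abs_le, abs_le, abs_le, abs_le]
    constructor
    · rintro ⟨⟨h1, h2⟩, ⟨h3, h4⟩, ⟨h5, h6⟩⟩
      refine ⟨⟨?_, ?_⟩, ⟨?_, ?_⟩, ⟨?_, ?_⟩⟩ <;> linarith
    · rintro ⟨⟨h1, h2⟩, ⟨h3, h4⟩, ⟨h5, h6⟩⟩
      refine ⟨⟨?_, ?_⟩, ⟨?_, ?_⟩, ⟨?_, ?_⟩⟩ <;> linarith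
  · rw [mem_σ_closed h, mem_H_Q _ _ _ (by ring)]

/-- The curves lie in the carried arcs. -/
theorem curve_sub {n : ℕ} (k : Fin n) {z : Plane} (hz : z ∈ curve (lev n k)) :
    ∃ t, ∃ q : Fin n × Fin 3, z ∈ σ t '' arc (lev n q.1) q.2 := by
  rw [mem_curve] at hz
  obtain ⟨x, τ, h0, h1, rfl⟩ := hz
  have hr0 := lev_pos k
  have hr1 := lev_lt k
  have hrev := lev_rev k
  generalize hr : lev n k = r at *
  obtain ⟨i, j, p, q, hf⟩ := form_exists r τ x
  have hH := form_Hx hr0 hr1 h0 h1 hf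
  rw [W_form hf]
  have hH' : Hx (-p) (-q) (p + q) := by
    unfold Hx at hH ⊢
    rw [abs_le, abs_le, abs_le] at hH ⊢
    obtain ⟨⟨h1, h2⟩, ⟨h3, h4⟩, ⟨h5, h6⟩⟩ := hH
    refine ⟨⟨?_, ?_⟩, ⟨?_, ?_⟩, ⟨?_, ?_⟩⟩ <;> linarith
  refine ⟨(i, j), ?_⟩
  rcases hf with ⟨ho, -, rfl, rfl⟩ | ⟨ho, -, rfl, rfl⟩ | ⟨ho, -, rfl, rfl⟩ |
    ⟨ho, -, rfl, rfl⟩ | ⟨ho, -, rfl, rfl⟩ | ⟨ho, -, rfl, rfl⟩
  · refine ⟨(k, 2), (mem_σ_closed ho _ _ _).2 ⟨(mem_H_Q _ _ _ (by ring)).2 hH, ?_⟩⟩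
    rw [hr, X_Q2 (by ring)]; ring
  · refine ⟨(k.rev, 1), (mem_σ_open ho _ _ _).2 ⟨(mem_H_Q _ _ _ (by ring)).2 hH', ?_⟩⟩
    rw [hrev, X_Q1 (by ring)]; ring
  · refine ⟨(k, 0), (mem_σ_closed ho _ _ _).2 ⟨(mem_H_Q _ _ _ (by ring)).2 hH, ?_⟩⟩
    rw [hr, X_Q0 (by ring)]
  · refine ⟨(k.rev, 2), (mem_σ_open ho _ _ _).2 ⟨(mem_H_Q _ _ _ (by ring)).2 hH', ?_⟩⟩
    rw [hrev, X_Q2 (by ring)]; ring
  · refine ⟨(k, 1), (mem_σ_closed ho _ _ _).2 ⟨(mem_H_Q _ _ _ (by ring)).2 hH, ?_⟩⟩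
    rw [hr, X_Q1 (by ring)]
  · refine ⟨(k.rev, 0), (mem_σ_open ho _ _ _).2 ⟨(mem_H_Q _ _ _ (by ring)).2 hH', ?_⟩⟩
    rw [hrev, X_Q0 (by ring)]; ring

/-- The carried arcs lie on the curves. -/
theorem sub_curve {n : ℕ} (t : ℤ × ℤ) (k : Fin n) (m : Fin 3) {z : Plane}
    (hz : z ∈ σ t '' arc (lev n k) m) : ∃ l : Fin n, z ∈ curve (lev n l) := by
  obtain ⟨i, j⟩ := t
  have hr0 := lev_pos k
  have hr1 := lev_lt k
  have hrev := lev_rev k
  generalize hr : lev n k = r at *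
  have fin : ∀ (l : Fin n) (ρ τ : ℝ) (x : HexSpiral.E) (p q : ℝ), lev n l = ρ →
      0 ≤ τ → τ ≤ 1 → Form ρ τ x i j p q →
      ∃ l : Fin n, Q (i + p) (j + q) (-i - j - p - q) ∈ curve (lev n l) := by
    intro l ρ τ x p q hl h0 h1 hf
    refine ⟨l, ?_⟩
    rw [hl, mem_curve]
    exact ⟨x, τ, h0, h1, (W_form hf).symm⟩
  have hdiv : ∀ y : ℝ, r * (y / r) = y := fun y => by field_simp
  have e1 : 1 - (1 - r) = r := by ring
  rw [local_eq i j z] at hz ⊢
  generalize X z 0 - (i : ℝ) = p at *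
  generalize X z 1 - (j : ℝ) = q at *
  have hm : m = 0 ∨ m = 1 ∨ m = 2 := by
    fin_cases m <;> simp
  by_cases ho : HexSpiral.O i j
  · rw [mem_σ_open ho] at hz
    obtain ⟨hH, h⟩ := hz
    rw [mem_H_Q _ _ _ (by ring)] at hH
    unfold Hx at hH
    rw [abs_le, abs_le, abs_le] at hH
    obtain ⟨⟨h1, h2⟩, ⟨h3, h4⟩, ⟨h5, h6⟩⟩ := hH
    rcases hm with rfl | rfl | rfl
    · rw [X_Q0 (by ring)] at h
      refine fin k.rev (1 - r) ((2 / 3 - (1 - r) / 3 - q) / r) ((i, j + 1), 2) p q hrev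
        (div_nonneg (by linarith) hr0.le) ((div_le_one hr0).2 (by linarith))
        (Or.inr (Or.inr (Or.inr (Or.inr (Or.inr ⟨ho, rfl, ?_, ?_⟩)))))
      · linarith
      · rw [e1, hdiv]; linarith
    · rw [X_Q1 (by ring)] at h
      refine fin k.rev (1 - r) ((p + 1 / 3 - 2 * (1 - r) / 3) / r) ((i, j), 0) p q hrev
        (div_nonneg (by linarith) hr0.le) ((div_le_one hr0).2 (by linarith))
        (Or.inr (Or.inl ⟨ho, rfl, ?_, ?_⟩))
      · rw [e1, hdiv]; linarith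
      · linarith
    · rw [X_Q2 (by ring)] at h
      refine fin k.rev (1 - r) ((2 / 3 - (1 - r) / 3 - p) / r) ((i + 1, j), 1) p q hrev
        (div_nonneg (by linarith) hr0.le) ((div_le_one hr0).2 (by linarith))
        (Or.inr (Or.inr (Or.inr (Or.inl ⟨ho, rfl, ?_, ?_⟩))))
      · rw [e1, hdiv]; linarith
      · rw [e1, hdiv]; linarith
  · rw [mem_σ_closed ho] at hz
    obtain ⟨hH, h⟩ := hz
    rw [mem_H_Q _ _ _ (by ring)] at hH
    unfold Hx at hH
    rw [abs_le, abs_le, abs_le] at hH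
    obtain ⟨⟨h1, h2⟩, ⟨h3, h4⟩, ⟨h5, h6⟩⟩ := hH
    rcases hm with rfl | rfl | rfl
    · rw [X_Q0 (by ring)] at h
      refine fin k r ((-1 / 3 + 2 * r / 3 - q) / r) ((i + 1, j), 1) p q hr
        (div_nonneg (by linarith) hr0.le) ((div_le_one hr0).2 (by linarith))
        (Or.inr (Or.inr (Or.inl ⟨ho, rfl, ?_, ?_⟩)))
      · linarith
      · rw [hdiv]; linarith
    · rw [X_Q1 (by ring)] at h
      refine fin k r ((p + 1 / 3 + r / 3) / r) ((i, j + 1), 2) p q hr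
        (div_nonneg (by linarith) hr0.le) ((div_le_one hr0).2 (by linarith))
        (Or.inr (Or.inr (Or.inr (Or.inr (Or.inl ⟨ho, rfl, ?_, ?_⟩)))))
      · rw [hdiv]; linarith
      · linarith
    · rw [X_Q2 (by ring)] at h
      refine fin k r ((-1 / 3 + 2 * r / 3 - p) / r) ((i, j), 0) p q hr
        (div_nonneg (by linarith) hr0.le) ((div_le_one hr0).2 (by linarith))
        (Or.inl ⟨ho, rfl, ?_, ?_⟩)
      · rw [hdiv]; linarith
      · rw [hdiv]; linarith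

theorem armed (n : ℕ) : IsArmedSpiral n (mark n) σ := by
  refine ⟨fun k => curve (lev n k), fun k => isCurve_curve (lev_pos k) (lev_lt k), ?_, ?_⟩
  · intro k l hkl
    rw [Set.disjoint_left]
    rintro z ⟨t, ht⟩ ⟨s, hs⟩
    have h := path_inj (lev_pos k) (lev_lt k) (lev_pos l) (lev_lt l) (ht.trans hs.symm)
    exact hkl (lev_inj h.1)
  · ext z
    simp only [Set.mem_iUnion]
    constructor
    · rintro ⟨k, hz⟩
      obtain ⟨t, q, h⟩ := curve_sub k hz
      exact ⟨t, _, ⟨q, rfl⟩, h⟩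
    · rintro ⟨t, _, ⟨⟨k, m⟩, rfl⟩, h⟩
      exact sub_curve t k m h

/-! ### The tiling -/

/-- Integer vectors with sum zero. -/
abbrev L : Type := {m : Fin 3 → ℤ // m 0 + m 1 + m 2 = 0}

/-- real vector of a lattice point -/
def R (m : L) : Fin 3 → ℝ := fun i => (m.1 i : ℝ)

/-- Reduction to the Voronoi cell. -/
theorem voronoi (x : Fin 3 → ℝ) (hx : x 0 + x 1 + x 2 = 0) :
    ∃ m : L, ∀ i j, (x - R m) i - (x - R m) j ≤ 1 := by
  have hf : ∀ i, 0 ≤ Int.fract (x i) := fun i => Int.fract_nonneg _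
  have hf1 : ∀ i, Int.fract (x i) < 1 := fun i => Int.fract_lt_one _
  have hfl : ∀ i, x i = ⌊x i⌋ + Int.fract (x i) := fun i => (Int.floor_add_fract _).symm
  have hsum : Int.fract (x 0) + Int.fract (x 1) + Int.fract (x 2) =
      ((-(⌊x 0⌋ + ⌊x 1⌋ + ⌊x 2⌋) : ℤ) : ℝ) := by
    have h0 := hfl 0
    have h1 := hfl 1
    have h2 := hfl 2
    push_cast
    linarith
  have hN0 : 0 ≤ -(⌊x 0⌋ + ⌊x 1⌋ + ⌊x 2⌋) := by
    have : (0 : ℝ) ≤ ((-(⌊x 0⌋ + ⌊x 1⌋ + ⌊x 2⌋) : ℤ) : ℝ) := by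
      rw [← hsum]
      have := hf 0
      have := hf 1
      have := hf 2
      linarith
    exact_mod_cast this
  have hN3 : -(⌊x 0⌋ + ⌊x 1⌋ + ⌊x 2⌋) < 3 := by
    have : ((-(⌊x 0⌋ + ⌊x 1⌋ + ⌊x 2⌋) : ℤ) : ℝ) < 3 := by
      rw [← hsum]
      have := hf1 0
      have := hf1 1
      have := hf1 2
      linarith
    exact_mod_cast this
  have hcase : -(⌊x 0⌋ + ⌊x 1⌋ + ⌊x 2⌋) = 0 ∨ -(⌊x 0⌋ + ⌊x 1⌋ + ⌊x 2⌋) = 1 ∨
      -(⌊x 0⌋ + ⌊x 1⌋ + ⌊x 2⌋) = 2 := by omega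
  rcases hcase with hN | hN | hN
  · refine ⟨⟨fun i => ⌊x i⌋, by linarith⟩, ?_⟩
    intro i j
    have e : ∀ k, (x - R ⟨fun i => ⌊x i⌋, by linarith⟩) k = Int.fract (x k) := by
      intro k
      simp only [Pi.sub_apply, R, Int.fract]
    rw [e, e]
    have := hf j
    have := hf1 i
    linarith
  · obtain ⟨k, -, hk⟩ := Finset.exists_max_image (Finset.univ : Finset (Fin 3))
      (fun i => Int.fract (x i)) ⟨0, Finset.mem_univ _⟩
    refine ⟨⟨fun i => ⌊x i⌋ + if i = k then 1 else 0, ?_⟩, ?_⟩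
    · fin_cases k <;> simp <;> linarith
    · intro i j
      have hi := hk i (Finset.mem_univ _)
      have hj := hk j (Finset.mem_univ _)
      have a1 := hf i
      have a2 := hf1 i
      have a3 := hf j
      have a4 := hf1 j
      have a5 := hf k
      have a6 := hf1 k
      have b1 := hfl i
      have b2 := hfl j
      simp only [Pi.sub_apply, R]
      push_cast
      split_ifs with c1 c2 c2
      · linarith
      · subst c1; linarith
      · subst c2; linarith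
      · linarith
  · obtain ⟨k, -, hk⟩ := Finset.exists_min_image (Finset.univ : Finset (Fin 3))
      (fun i => Int.fract (x i)) ⟨0, Finset.mem_univ _⟩
    refine ⟨⟨fun i => ⌊x i⌋ + if i = k then 0 else 1, ?_⟩, ?_⟩
    · fin_cases k <;> simp <;> linarith
    · intro i j
      have hi := hk i (Finset.mem_univ _)
      have hj := hk j (Finset.mem_univ _)
      have a1 := hf i
      have a2 := hf1 i
      have a3 := hf j
      have a4 := hf1 j
      have a5 := hf k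
      have a6 := hf1 k
      have b1 := hfl i
      have b2 := hfl j
      simp only [Pi.sub_apply, R]
      push_cast
      split_ifs with c1 c2 c2
      · linarith
      · subst c1; linarith
      · subst c2; linarith
      · linarith

theorem interior_line (c0 c1 d : ℝ) (h : c0 ≠ 0 ∨ c1 ≠ 0) :
    interior {z : Plane | c0 * z 0 + c1 * z 1 = d} = ∅ := by
  rw [Set.eq_empty_iff_forall_notMem]
  intro z hz
  rw [mem_interior_iff_mem_nhds, Metric.mem_nhds_iff] at hz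
  obtain ⟨ε, hε, hb⟩ := hz
  have hz0 : c0 * z 0 + c1 * z 1 = d := hb (Metric.mem_ball_self hε)
  have move : ∀ i : Fin 2, z + EuclideanSpace.single i (ε / 2) ∈ Metric.ball z ε := by
    intro i
    rw [Metric.mem_ball, dist_eq_norm]
    rw [add_sub_cancel_left, PiLp.norm_single, Real.norm_eq_abs]
    rw [abs_of_pos (by linarith)]
    linarith
  rcases h with h | h
  · have h2 := hb (move 0)
    simp only [Set.mem_ofPred_eq, PiLp.add_apply, PiLp.single_apply] at h2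
    simp at h2
    apply h
    have : c0 * (ε / 2) = 0 := by linarith
    rcases mul_eq_zero.1 this with h3 | h3
    · exact h3
    · linarith
  · have h2 := hb (move 1)
    simp only [Set.mem_ofPred_eq, PiLp.add_apply, PiLp.single_apply] at h2
    simp at h2
    apply h
    have : c1 * (ε / 2) = 0 := by linarith
    rcases mul_eq_zero.1 this with h3 | h3
    · exact h3
    · linarith

theorem tiling : IsTilingBy σ := by
  refine ⟨inferInstance, ?_, ?_⟩
  · rw [Set.eq_univ_iff_forall]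
    intro z
    obtain ⟨m, hm⟩ := voronoi (X z) (X_sum z)
    rw [Set.mem_iUnion]
    refine ⟨(m.1 0, m.1 1), ?_⟩
    rw [local_eq (m.1 0) (m.1 1) z, mem_tile]
    have e := m.2
    have e2 : (m.1 0 : ℝ) + m.1 1 + m.1 2 = 0 := by exact_mod_cast e
    have hs := X_sum z
    have h01 := hm 0 1
    have h10 := hm 1 0
    have h02 := hm 0 2
    have h20 := hm 2 0
    have h12 := hm 1 2
    have h21 := hm 2 1
    simp only [Pi.sub_apply, R] at h01 h10 h02 h20 h12 h21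
    refine ⟨abs_le.2 ⟨?_, ?_⟩, abs_le.2 ⟨?_, ?_⟩, abs_le.2 ⟨?_, ?_⟩⟩ <;> linarith
  · rintro ⟨i, j⟩ ⟨i', j'⟩ hne
    rw [Set.disjoint_iff_inter_eq_empty, ← interior_inter]
    have hal : ∀ a b : Fin 3, a ≠ b → al a - al b ≠ 0 := by
      intro a b h
      fin_cases a <;> fin_cases b <;> simp [al] at h ⊢ <;> norm_num
    have key : ∀ (a b : Fin 3) (n : ℝ), a ≠ b →
        (∀ z ∈ σ (i, j) '' H ∩ σ (i', j') '' H, X z a - X z b = n) →
        interior (σ (i, j) '' H ∩ σ (i', j') '' H) = ∅ := by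
      intro a b n hab h
      apply Set.eq_empty_of_subset_empty
      rw [← interior_line (al a - al b) (be a - be b) n (Or.inl (hal a b hab))]
      apply interior_mono
      intro z hz
      have := h z hz
      change (al a - al b) * z 0 + (be a - be b) * z 1 = n
      rw [← this]
      simp only [X]
      ring
    have hx : ∀ z ∈ σ (i, j) '' H ∩ σ (i', j') '' H,
        (|-(X z 0 - i) - (X z 1 - j) - (X z 0 - i)| ≤ 1 ∧
          |-(X z 0 - i) - (X z 1 - j) - (X z 1 - j)| ≤ 1 ∧ |X z 1 - j - (X z 0 - i)| ≤ 1) ∧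
        (|-(X z 0 - i') - (X z 1 - j') - (X z 0 - i')| ≤ 1 ∧
          |-(X z 0 - i') - (X z 1 - j') - (X z 1 - j')| ≤ 1 ∧
          |X z 1 - j' - (X z 0 - i')| ≤ 1) := by
      rintro z ⟨h1, h2⟩
      rw [local_eq i j z, mem_tile] at h1
      rw [local_eq i' j' z, mem_tile] at h2
      exact ⟨h1, h2⟩
    have hcase : 2 ≤ i' - i - (j' - j) ∨ i' - i - (j' - j) ≤ -2 ∨
        2 ≤ 2 * (i' - i) + (j' - j) ∨ 2 * (i' - i) + (j' - j) ≤ -2 ∨
        2 ≤ (i' - i) + 2 * (j' - j) ∨ (i' - i) + 2 * (j' - j) ≤ -2 := by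
      by_contra hcon
      apply hne
      rw [Prod.mk.injEq]
      omega
    rcases hcase with h | h | h | h | h | h
    · have hr : (2 : ℝ) ≤ i' - i - (j' - j) := by exact_mod_cast h
      apply key 0 1 (1 + i - j) (by decide)
      intro z hz
      obtain ⟨⟨a1, a2, a3⟩, ⟨b1, b2, b3⟩⟩ := hx z hz
      rw [abs_le] at a1 a2 a3 b1 b2 b3
      apply le_antisymm <;> linarith
    · have hr : (i' : ℝ) - i - (j' - j) ≤ -2 := by exact_mod_cast h
      apply key 0 1 (-1 + i - j) (by decide)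
      intro z hz
      obtain ⟨⟨a1, a2, a3⟩, ⟨b1, b2, b3⟩⟩ := hx z hz
      rw [abs_le] at a1 a2 a3 b1 b2 b3
      apply le_antisymm <;> linarith
    · have hr : (2 : ℝ) ≤ 2 * (i' - i) + (j' - j) := by exact_mod_cast h
      apply key 0 2 (1 + 2 * i + j) (by decide)
      intro z hz
      have hs := X_sum z
      obtain ⟨⟨a1, a2, a3⟩, ⟨b1, b2, b3⟩⟩ := hx z hz
      rw [abs_le] at a1 a2 a3 b1 b2 b3
      apply le_antisymm <;> linarith
    · have hr : 2 * ((i' : ℝ) - i) + (j' - j) ≤ -2 := by exact_mod_cast h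
      apply key 0 2 (-1 + 2 * i + j) (by decide)
      intro z hz
      have hs := X_sum z
      obtain ⟨⟨a1, a2, a3⟩, ⟨b1, b2, b3⟩⟩ := hx z hz
      rw [abs_le] at a1 a2 a3 b1 b2 b3
      apply le_antisymm <;> linarith
    · have hr : (2 : ℝ) ≤ (i' - i) + 2 * (j' - j) := by exact_mod_cast h
      apply key 1 2 (1 + i + 2 * j) (by decide)
      intro z hz
      have hs := X_sum z
      obtain ⟨⟨a1, a2, a3⟩, ⟨b1, b2, b3⟩⟩ := hx z hz
      rw [abs_le] at a1 a2 a3 b1 b2 b3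
      apply le_antisymm <;> linarith
    · have hr : ((i' : ℝ) - i) + 2 * (j' - j) ≤ -2 := by exact_mod_cast h
      apply key 1 2 (-1 + i + 2 * j) (by decide)
      intro z hz
      have hs := X_sum z
      obtain ⟨⟨a1, a2, a3⟩, ⟨b1, b2, b3⟩⟩ := hx z hz
      rw [abs_le] at a1 a2 a3 b1 b2 b3
      apply le_antisymm <;> linarith

/-- The regular hexagon is the prototile of an `n`-armed spiral exactly for all positive
integers `n`. -/
theorem result : {n : ℕ | 0 < n ∧ ∃ (M : Set (Set Plane)) (ι : Type) (σ : ι → (Plane ≃ᵢ Plane)),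
    IsMarking M ∧ IsTilingBy σ ∧ IsArmedSpiral n M σ} = {n : ℕ | 0 < n} := by
  ext n
  constructor
  · rintro ⟨h, -⟩
    exact h
  · intro h
    exact ⟨h, mark n, ℤ × ℤ, σ, isMarking_mark h, tiling, armed n⟩

end Pool.Agent.Results.MP_f80956_co.AllArms
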